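import Pool.Agent.H95.FI.Defs

set_option autoImplicit false

open MvPolynomial

namespace H39.FI

open H95.FG H95.FI

/-- affine substitution, one group -/
noncomputable def sb {n r : ℕ} (x0 : Fin n → ℂ) (u : Fin r → Fin n → ℂ) : Pn n →ₐ[ℂ] Pn r :=
  aeval (fun k => C (x0 k) + ∑ i, C (u i k) * X i)

/-- affine substitution, both groups -/
noncomputable def sb2 {n r : ℕ} (x0 y0 : Fin n → ℂ) (u v : Fin r → Fin n → ℂ) :
    Qn n →ₐ[ℂ] Qn r :=
  aeval (Sum.elim (fun k => rename Sum.inl (C (x0 k) + ∑ i, C (u i k) * X i))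
    (fun k => rename Sum.inr (C (y0 k) + ∑ i, C (v i k) * X i)))

theorem sb2_inl {n r : ℕ} (x0 y0 : Fin n → ℂ) (u v : Fin r → Fin n → ℂ) (f : Pn n) :
    sb2 x0 y0 u v (rename Sum.inl f) = rename Sum.inl (sb x0 u f) := by
  have h : (sb2 x0 y0 u v).comp (rename Sum.inl) = (rename Sum.inl).comp (sb x0 u) := by
    apply MvPolynomial.algHom_ext
    intro k
    simp only [AlgHom.comp_apply, rename_X, sb2, sb, aeval_X, Sum.elim_inl]
  exact DFunLike.congr_fun h f

theorem sb2_inr {n r : ℕ} (x0 y0 : Fin n → ℂ) (u v : Fin r → Fin n → ℂ) (f : Pn n) :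
    sb2 x0 y0 u v (rename Sum.inr f) = rename Sum.inr (sb y0 v f) := by
  have h : (sb2 x0 y0 u v).comp (rename Sum.inr) = (rename Sum.inr).comp (sb y0 v) := by
    apply MvPolynomial.algHom_ext
    intro k
    simp only [AlgHom.comp_apply, rename_X, sb2, sb, aeval_X, Sum.elim_inr]
  exact DFunLike.congr_fun h f

theorem eval_sb2 {n r : ℕ} (x0 y0 : Fin n → ℂ) (u v : Fin r → Fin n → ℂ)
    (w : Fin r ⊕ Fin r → ℂ) (P : Qn n) :
    eval w (sb2 x0 y0 u v P) =
      eval (Sum.elim (x0 + ∑ i, w (Sum.inl i) • u i) (y0 + ∑ i, w (Sum.inr i) • v i)) P := by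
  induction P using MvPolynomial.induction_on with
  | C a => simp [sb2]
  | add p q hp hq => rw [map_add, map_add, hp, hq, map_add]
  | mul_X p k hp =>
    rw [map_mul, map_mul, hp, map_mul]
    congr 1
    rcases k with k | k
    · simp [sb2, mul_comm]
    · simp [sb2, mul_comm]

theorem dt_key {n r : ℕ} (x0 y0 : Fin n → ℂ) (u v : Fin r → Fin n → ℂ) (s t : Fin r → ℂ)
    (h0 : dt x0 y0 = 0) (h1 : ∀ i, dt (u i) y0 = 0) (h2 : ∀ j, dt x0 (v j) = 0)
    (h3 : ∀ i j, dt (u i) (v j) = if i = j then 1 else 0) :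
    dt (x0 + ∑ i, s i • u i) (y0 + ∑ i, t i • v i) = ∑ i, s i * t i := by
  have e : ∀ a b : Fin n → ℂ, dt a b = a ⬝ᵥ b := fun a b => rfl
  simp only [e] at *
  rw [add_dotProduct, dotProduct_add, dotProduct_add, h0, sum_dotProduct, dotProduct_sum,
    sum_dotProduct]
  simp only [smul_dotProduct, dotProduct_smul, h1, h2, dotProduct_sum, h3, smul_eq_mul, mul_zero,
    Finset.sum_const_zero, zero_add, mul_ite, mul_one, Finset.sum_ite_eq, Finset.mem_univ, if_true]
  exact Finset.sum_congr rfl fun i _ => mul_comm _ _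

theorem t_RK2 (hA : S_RKA) (hD : S_DUAL) (hB : S_RKB) : S_RK2 := by
  intro r M f g B hr hB0 hsum
  obtain ⟨e, B', x0, y0, he, h0, hne⟩ := hA r B hr hB0
  obtain ⟨r', u, v, hr1, hr2, hu, hv, huv, -⟩ :=
    hD r 1 (fun _ => x0) (fun _ => y0) (by omega)
  have hu' : ∀ i, dt (u i) y0 = 0 := fun i => hu i 0
  have hv' : ∀ j, dt x0 (v j) = 0 := fun j => hv 0 j
  have hSS : sb2 x0 y0 u v (SS r) = SS r' := by
    apply MvPolynomial.funext
    intro w
    rw [eval_sb2]
    have := dt_key x0 y0 u v (fun i => w (Sum.inl i)) (fun i => w (Sum.inr i)) h0 hu' hv' huv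
    unfold dt at this
    simp only [SS, map_sum, map_mul, eval_X, Sum.elim_inl, Sum.elim_inr]
    exact this
  have hcc : constantCoeff (sb2 x0 y0 u v B') ≠ 0 := by
    have h1 := eval_sb2 x0 y0 u v (0 : Fin r' ⊕ Fin r' → ℂ) B'
    simp only [Pi.zero_apply, zero_smul, Finset.sum_const_zero, add_zero] at h1
    rw [eval_zero] at h1
    rw [h1]
    exact hne
  have key := hB r' (e + 2) M (fun l => sb x0 u (f l)) (fun l => sb y0 v (g l))
    (sb2 x0 y0 u v B') (by omega) hcc (by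
      have h1 := congrArg (sb2 x0 y0 u v) hsum
      rw [map_sum, he, map_mul, map_mul, map_pow, map_pow, hSS] at h1
      simp only [map_mul, sb2_inl, sb2_inr] at h1
      rw [h1]
      ring)
  have h4 : r - 2 ≤ r' := by omega
  have h5 : r - 1 ≤ r' + 1 := by omega
  exact (Nat.mul_le_mul h4 h5).trans key

end H39.FI
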