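import Pool.Agent.H95.FI.Defs
import Pool.Agent.H91.FG.Nulls

set_option autoImplicit false

open MvPolynomial

namespace H39.FI

open H95.FG H95.FI

theorem t_RKA : S_RKA := by
  intro r B hr hB
  have hirr : Irreducible (SS r) := H91.FG.irr hr
  obtain ⟨e, B', hnd, he⟩ := WfDvdMonoid.max_power_factor hB hirr
  by_contra hcon
  push Not at hcon
  apply hnd
  obtain ⟨C, hC⟩ := H91.FG.t_NUL r B' hr (fun z Y h => hcon e B' z Y he h)
  exact ⟨C, hC⟩

end H39.FI
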